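import Mathlib
import Pool.Agent.Helper884.Act2

set_option autoImplicit false

namespace Pool.Agent.Results.MP_5f7865_al.Solvable

open Pool.Agent.Helper884.Act

/-- The conclusion of Q1 for one group `G`: there is a function `f` such that, for every finite
group `X`, the number of homomorphisms `G → Aut X` up to conjugation by `Aut X` is at most `f` of
the number of prime factors of `|X|`, counted with multiplicity. -/
def BoundedActions (G : Type) [Group G] : Prop :=
  ∃ f : ℕ → ℕ, ∀ (X : Type) [Group X] [Finite X],
    Nat.card (Quot (fun φ ψ : G →* MulAut X =>
        ∃ a : MulAut X, ∀ g : G, ψ g = a * φ g * a⁻¹))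
      ≤ f (Nat.primeFactorsList (Nat.card X)).length

theorem boundedActions_ext (G : Type) [Group G] [Finite G] (M : Subgroup G) [M.Normal]
    (hsolv : Group.IsSolvable (G ⧸ M)) (hM : BoundedActions M) : BoundedActions G := by
  classical
  obtain ⟨f, hf⟩ := hM
  choose c hc using exists_good
  choose K hK using fun k => cov_ext (Nat.card G) G M hsolv rfl (c k) k
  refine ⟨fun k => f k * K k, ?_⟩
  intro X _ _
  have hfin : Finite (MulAut X) :=
    Finite.of_injective (fun f : MulAut X => (f : X → X)) DFunLike.coe_injective
  exact quot_le_of_cov (hK _ (MulAut X) (hc _ X rfl) _ (cov_of_quot_le (hf X)))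

theorem boundedActions_of_solvable (G : Type) [Group G] [Finite G] (hsolv : Group.IsSolvable G) :
    BoundedActions G := by
  have h0 : BoundedActions (⊥ : Subgroup G) := by
    refine ⟨fun _ => 1, ?_⟩
    intro X _ _
    apply quot_le_of_cov
    refine ⟨{1}, by simp, ?_⟩
    intro ρ
    refine ⟨1, by simp, 1, ?_⟩
    intro g
    have : g = 1 := Subsingleton.elim _ _
    simp [this]
  have : Group.IsSolvable (G ⧸ (⊥ : Subgroup G)) := inferInstance
  exact boundedActions_ext G ⊥ this h0


/-- Reduction to perfect groups. -/
theorem reduction (h : ∀ (G : Type) [Group G] [Finite G], commutator G = ⊤ → BoundedActions G) :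
    ∀ (n : ℕ) (G : Type) [Group G] [Finite G], Nat.card G = n → BoundedActions G := by
  intro n
  induction n using Nat.strong_induction_on with
  | _ n ih =>
    intro G _ _ hn
    by_cases hc : commutator G = ⊤
    · exact h G hc
    · have hlt : Nat.card (commutator G) < n := by
        rw [← hn]
        refine lt_of_le_of_ne
          (Nat.card_le_card_of_injective _ (commutator G).subtype_injective) ?_
        intro h'
        exact hc (Subgroup.eq_top_of_card_eq _ h')
      have hM := ih _ hlt (commutator G) rfl
      have hcom : ∀ a b : G ⧸ commutator G, a * b = b * a :=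
        fun a b => mul_comm (G := Abelianization G) a b
      have hs : Group.IsSolvable (G ⧸ commutator G) := Group.isSolvable_of_comm hcom
      exact boundedActions_ext G (commutator G) hs hM

/-- Q1 holds for every finite solvable group `G` (and all finite groups `X`); Q1 for a normal
subgroup with solvable quotient implies Q1 for the whole group; and Q1 for all finite perfect
groups implies Q1 for all finite groups. -/
theorem result :
    (∀ (G : Type) [Group G] [Finite G], Group.IsSolvable G → BoundedActions G) ∧
    (∀ (G : Type) [Group G] [Finite G] (M : Subgroup G) [M.Normal],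
      Group.IsSolvable (G ⧸ M) → BoundedActions M → BoundedActions G) ∧
    ((∀ (G : Type) [Group G] [Finite G], commutator G = ⊤ → BoundedActions G) →
      ∀ (G : Type) [Group G] [Finite G], BoundedActions G) :=
  ⟨fun G _ _ h => boundedActions_of_solvable G h,
    fun G _ _ M _ h hM => boundedActions_ext G M h hM,
    fun h G _ _ => reduction h _ G rfl⟩

end Pool.Agent.Results.MP_5f7865_al.Solvable
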